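import Pool.Agent.helper69.GR2B.Spec
import Pool.Agent.helper64.ILF.Region98

set_option autoImplicit false

open Complex Metric Set Filter Topology MeasureTheory
open MPS (om)
open PPS (pre TT fd)
open XPS (Df er dens tau)
open Pool.Agent.helper16.Multibrot

noncomputable section

namespace GR

theorem BGL_ne0 (n : ℕ) (c : ℂ) (hn : 2 ≤ n)
    (hA : ¬ Pool.Agent.helper98.ILF.HasAttractingCycle (fun z : ℂ => z ^ n + c)) (j : ℕ)
    (hj : 1 ≤ j) : Z n c j ≠ 0 := by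
  intro h
  apply hA
  refine ⟨0, j, hj, h, ?_⟩
  obtain ⟨k, rfl⟩ : ∃ k, j = k + 1 := ⟨j - 1, by omega⟩
  have hd : ∀ m : ℕ, Differentiable ℂ ((fun z : ℂ => z ^ n + c)^[m]) := by
    intro m
    induction m with
    | zero => simp
    | succ m ih =>
      rw [Function.iterate_succ]
      exact ih.comp (by fun_prop)
  have h0 : HasDerivAt (fun z : ℂ => z ^ n + c) 0 0 := by
    have h1 := ((hasDerivAt_pow n (0 : ℂ)).add_const c)
    have h2 : (n : ℂ) * (0 : ℂ) ^ (n - 1) = 0 := by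
      rw [zero_pow (by omega), mul_zero]
    rwa [h2] at h1
  have h3 := ((hd k) ((fun z : ℂ => z ^ n + c) 0)).hasDerivAt.comp (0 : ℂ) h0
  rw [mul_zero] at h3
  rw [Function.iterate_succ]
  rw [h3.deriv]
  simp

theorem BGL_mono (x X : ℝ) (hx : 1 ≤ x) (hX : x ≤ X) :
    (1 + Real.log X) * x ≤ X * (1 + Real.log x) := by
  have hx0 : 0 < x := by linarith
  have hX0 : 0 < X := by linarith
  have h1 : Real.log (X / x) ≤ X / x - 1 := Real.log_le_sub_one_of_pos (by positivity)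
  rw [Real.log_div hX0.ne' hx0.ne'] at h1
  have h2 : 0 ≤ Real.log x := Real.log_nonneg hx
  have h3 : 0 ≤ (X - x) * Real.log x := mul_nonneg (by linarith) h2
  have h4 : (Real.log X - Real.log x) * x ≤ X - x := by
    have := mul_le_mul_of_nonneg_right h1 hx0.le
    calc (Real.log X - Real.log x) * x ≤ (X / x - 1) * x := this
      _ = X - x := by field_simp
  nlinarith

theorem BGL_SS (n : ℕ) (c : ℂ) (p : ℕ) (hp : 1 ≤ p) (hA : A n c 1 = 1) : 1 ≤ SS n c p := by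
  unfold SS
  have h1 : (1 : ℕ) ∈ Finset.Icc 1 p := Finset.mem_Icc.2 ⟨le_rfl, hp⟩
  have h2 : ‖A n c 1‖ / ‖A n c 1‖ ≤ ∑ j ∈ Finset.Icc 1 p, ‖A n c j‖ / ‖A n c 1‖ :=
    Finset.single_le_sum (f := fun j => ‖A n c j‖ / ‖A n c 1‖) (fun j _ => by positivity) h1
  have h3 : ∑ j ∈ Finset.Icc 1 p, ‖A n c j‖ / ‖A n c 1‖ ≤
      ∑ i ∈ Finset.Icc 1 p, ∑ j ∈ Finset.Icc 1 p, ‖A n c j‖ / ‖A n c i‖ :=
    Finset.single_le_sum (f := fun i => ∑ j ∈ Finset.Icc 1 p, ‖A n c j‖ / ‖A n c i‖)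
      (fun i _ => Finset.sum_nonneg fun j _ => by positivity) h1
  have h4 : ‖A n c 1‖ / ‖A n c 1‖ = 1 := by rw [hA, norm_one, div_one]
  linarith

theorem BGL_log20 : Real.log 20 ≤ 3 := by
  rw [Real.log_le_iff_le_exp (by norm_num)]
  have h1 : (2.7182818283 : ℝ) < Real.exp 1 := Real.exp_one_gt_d9
  have h2 : Real.exp 3 = Real.exp 1 ^ 3 := by
    rw [← Real.exp_nat_mul]; norm_num
  rw [h2]
  have h3 : (2.7182818283 : ℝ) ^ 3 ≤ Real.exp 1 ^ 3 := by gcongr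
  refine le_trans ?_ h3
  norm_num

theorem BGL_w (p : ℕ) (hp : 1 ≤ p) (S : ℝ) (hS1 : 1 ≤ S)
    (hS : 1 + Real.log S ≤ 20 * (p * (1 + Real.log p))) :
    1 + Real.log (1 + Real.log S) ≤ 4 * (1 + Real.log p) := by
  have hp1 : (1 : ℝ) ≤ p := by exact_mod_cast hp
  have hp0 : (0 : ℝ) < p := by linarith
  have hlp : 0 ≤ Real.log p := Real.log_nonneg hp1
  have hl : 1 + Real.log p ≤ p := by
    have := Real.log_le_sub_one_of_pos hp0
    linarith
  have hlS : 0 ≤ Real.log S := Real.log_nonneg hS1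
  have h1 : 1 + Real.log S ≤ 20 * (p * p) := by
    refine hS.trans ?_
    gcongr
  have h2 : Real.log (1 + Real.log S) ≤ Real.log (20 * (p * p)) :=
    Real.log_le_log (by linarith) h1
  rw [Real.log_mul (by norm_num) (by positivity), Real.log_mul hp0.ne' hp0.ne'] at h2
  have h3 := BGL_log20
  linarith

/-- BGL: THEOREM G' for `n = 2` with the factor `(1 + log p)^4`. -/
theorem BGL (hBCOR : BCOR_stmt) (hLFZ : LFZ_stmt) (hLFD : LFD_stmt) (hBDM : BDM_stmt)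
    (hNAT : NAT_stmt) (hCTB : NLF.CTB_stmt) (hNZ : NLF.NZ_stmt) (hLFI : NLF.LFI_stmt)
    (hWEX : WEX_stmt) : BGL_stmt := by
  obtain ⟨K₀, hK₀, hcore⟩ := hBCOR
  obtain ⟨C, hC, hlfd⟩ := hLFD
  refine ⟨256 * max (K₀ * max C 80) 160, fun c μ hμ p hp x hx hxj => ?_⟩
  have hn2 : 2 ≤ 2 := le_rfl
  obtain ⟨-, hLF, hpos, hnA⟩ := hLFI 2 c μ hn2 hμ
  have hM : c ∈ multibrot 2 := (Pool.Agent.helper64.ILF98.posArea_subset hn2
    (Pool.Agent.helper64.ILF98.lineField_mem ⟨μ, hμ⟩)).1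
  have hb := hBDM 2 c hn2 hM
  have hne := BGL_ne0 2 c hn2 hnA
  have hac : NLF.CT μ c ≠ 0 := hNZ 2 c μ hn2 hLF hpos
  have hac0 : 0 < ‖NLF.CT μ c‖ := norm_pos_iff.2 hac
  have hac80 : ‖NLF.CT μ c‖ ≤ 80 := (hCTB μ hLF.meas hLF.bd hLF.supp).2.1 c
  have hlx : 0 ≤ Real.log x := Real.log_nonneg hx
  have hSS1 : 1 ≤ SS 2 c p := BGL_SS 2 c p (by omega) (hNAT 2 c hn2).2.2.2.2.2.2.1
  have hlSS : 0 ≤ Real.log (SS 2 c p) := Real.log_nonneg hSS1
  obtain ⟨L, hL⟩ : ∃ L, L = (1 + Real.log (1 + Real.log (SS 2 c p))) ^ 4 := ⟨_, rfl⟩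
  have hlSS2 : 0 ≤ Real.log (1 + Real.log (SS 2 c p)) := Real.log_nonneg (by linarith)
  have hL1 : 1 ≤ L := by rw [hL]; exact one_le_pow₀ (by linarith)
  have hnH : c ∉ hyperbolic 2 := hnA
  have hW := BGL_w p (by omega) (SS 2 c p) hSS1 (hWEX c hM hnH p (by omega))
  have hL4 : L ≤ 256 * (1 + Real.log p) ^ 4 := by
    rw [hL]
    calc (1 + Real.log (1 + Real.log (SS 2 c p))) ^ 4 ≤ (4 * (1 + Real.log p)) ^ 4 := by gcongr
      _ = 256 * (1 + Real.log p) ^ 4 := by ring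
  show ‖NLF.CT μ c‖ * x ≤ 256 * max (K₀ * max C 80) 160 * (1 + Real.log p) ^ 4 * (1 + Real.log x)
  have hKK : (0 : ℝ) ≤ max (K₀ * max C 80) 160 := le_trans (by norm_num) (le_max_right _ _)
  suffices hsuf : ‖NLF.CT μ c‖ * x ≤ max (K₀ * max C 80) 160 * L * (1 + Real.log x) by
    refine hsuf.trans ?_
    calc max (K₀ * max C 80) 160 * L * (1 + Real.log x)
        ≤ max (K₀ * max C 80) 160 * (256 * (1 + Real.log p) ^ 4) * (1 + Real.log x) := by gcongr
      _ = 256 * max (K₀ * max C 80) 160 * (1 + Real.log p) ^ 4 * (1 + Real.log x) := by ring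
  rcases lt_or_ge x 2 with hx2 | hx2
  · have h1 : (160 : ℝ) ≤ max (K₀ * max C 80) 160 := le_max_right _ _
    calc ‖NLF.CT μ c‖ * x ≤ 80 * 2 := by gcongr
      _ ≤ max (K₀ * max C 80) 160 * 1 * 1 := by linarith
      _ ≤ max (K₀ * max C 80) 160 * L * (1 + Real.log x) := by
          have h2 : (0 : ℝ) ≤ max (K₀ * max C 80) 160 := by linarith
          gcongr
          linarith
  · -- the previous closest return
    obtain ⟨q, hq, hqmin⟩ := Finset.exists_min_image (Finset.Icc 1 (p - 1))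
      (fun j => ‖Z 2 c j‖) ⟨1, by simp; omega⟩
    rw [Finset.mem_Icc] at hq
    have hZp : 0 < ‖Z 2 c p‖ := norm_pos_iff.2 (hne p (by omega))
    have hZq : 0 < ‖Z 2 c q‖ := norm_pos_iff.2 (hne q hq.1)
    have hxq := hxj q hq.1 (by omega)
    have hXx : x ≤ X 2 c p q := by
      unfold X
      rw [le_div_iff₀ hZp]; exact hxq
    have h2pq : 2 * ‖Z 2 c p‖ ≤ ‖Z 2 c q‖ := by nlinarith
    have hc2 : ‖c‖ ≤ 2 := by
      have := hb 1
      rwa [(hNAT 2 c hn2).2.2.2.2.2.1] at this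
    have hR : Ret 2 c p q :=
      { hn := hn2
        hc := hc2
        le2 := fun j _ _ => hb j
        ne0 := fun j h1 _ => hne j h1
        q1 := hq.1
        qp := by omega
        mn := fun j h1 h2 => hqmin j (Finset.mem_Icc.2 ⟨h1, by omega⟩)
        lt := by linarith }
    obtain ⟨hR0, -, hX1, -, hA, -, -⟩ := (hNAT 2 c hn2).2.2.2.2.2.2.2.2.2.2 p q hR
    have hAp := hA p (by omega) (by omega)
    have hAq := hA q (by omega) (by omega)
    obtain ⟨ha0, hS⟩ := hLFZ 2 c μ hn2 hLF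
    have hSp := hS p (by omega) (fun i h1 _ => hne i h1)
    have hSq := hS q hq.1 (fun i h1 _ => hne i h1)
    have hdq := hlfd 2 c μ hLF ha0 (Z 2 c p) (Z 2 c q) (hne p (by omega)) h2pq
    have hC'1 : 80 ≤ max C 80 := le_max_right _ _
    have hC'2 : C ≤ max C 80 := le_max_left _ _
    have hκ : 1 ≤ max C 80 / ‖NLF.CT μ c‖ := by
      rw [one_le_div hac0]; linarith
    have hlX : 0 ≤ Real.log (X 2 c p q) := Real.log_nonneg hX1.le
    have key : S 2 c p - lam 2 c p q * S 2 c q = Z 2 c p / (A 2 c p * NLF.CT μ c) *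
        (NLF.CT μ (Z 2 c p) / Z 2 c p - NLF.CT μ (Z 2 c q) / Z 2 c q) := by
      rw [hSp, hSq]
      unfold lam
      have e1 := hne p (by omega)
      have e2 := hne q hq.1
      field_simp
    have hmain := hcore c p q (max C 80 / ‖NLF.CT μ c‖) hR hκ (by
      rw [key, norm_mul, norm_div, norm_mul]
      calc ‖Z 2 c p‖ / (‖A 2 c p‖ * ‖NLF.CT μ c‖) *
            ‖NLF.CT μ (Z 2 c p) / Z 2 c p - NLF.CT μ (Z 2 c q) / Z 2 c q‖
          ≤ ‖Z 2 c p‖ / (‖A 2 c p‖ * ‖NLF.CT μ c‖) *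
            (C * (1 + Real.log (‖Z 2 c q‖ / ‖Z 2 c p‖))) := by gcongr
        _ ≤ ‖Z 2 c p‖ / (‖A 2 c p‖ * ‖NLF.CT μ c‖) *
            (max C 80 * (1 + Real.log (‖Z 2 c q‖ / ‖Z 2 c p‖))) := by
            have : 0 ≤ 1 + Real.log (‖Z 2 c q‖ / ‖Z 2 c p‖) := by
              have : 0 ≤ Real.log (‖Z 2 c q‖ / ‖Z 2 c p‖) := hlX
              linarith
            gcongr
        _ = max C 80 / ‖NLF.CT μ c‖ * (‖Z 2 c p‖ / ‖A 2 c p‖) *
            (1 + Real.log (X 2 c p q)) := by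
            have hAp' : ‖A 2 c p‖ ≠ 0 := norm_ne_zero_iff.2 hAp
            unfold X
            field_simp)
    rw [← hL] at hmain
    have h5 : ‖NLF.CT μ c‖ * X 2 c p q ≤ K₀ * max C 80 * L * (1 + Real.log (X 2 c p q)) := by
      calc ‖NLF.CT μ c‖ * X 2 c p q ≤ ‖NLF.CT μ c‖ *
            (K₀ * (max C 80 / ‖NLF.CT μ c‖) * (1 + Real.log (X 2 c p q)) * L) := by gcongr
        _ = K₀ * max C 80 * L * (1 + Real.log (X 2 c p q)) := by
            field_simp
    have h6 := BGL_mono x (X 2 c p q) hx hXx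
    have hX0 : 0 < X 2 c p q := by linarith
    have hL0 : 0 ≤ L := by linarith
    have hKC : 0 ≤ K₀ * max C 80 * L := by positivity
    have h7 : ‖NLF.CT μ c‖ * x ≤ K₀ * max C 80 * L * (1 + Real.log x) := by
      have h8 : (‖NLF.CT μ c‖ * x) * X 2 c p q ≤
          (K₀ * max C 80 * L * (1 + Real.log x)) * X 2 c p q := by
        calc (‖NLF.CT μ c‖ * x) * X 2 c p q = (‖NLF.CT μ c‖ * X 2 c p q) * x := by ring
          _ ≤ (K₀ * max C 80 * L * (1 + Real.log (X 2 c p q))) * x := by gcongr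
          _ = (K₀ * max C 80 * L) * ((1 + Real.log (X 2 c p q)) * x) := by ring
          _ ≤ (K₀ * max C 80 * L) * (X 2 c p q * (1 + Real.log x)) := by gcongr
          _ = (K₀ * max C 80 * L * (1 + Real.log x)) * X 2 c p q := by ring
      exact le_of_mul_le_mul_right h8 hX0
    refine h7.trans ?_
    have : 0 ≤ 1 + Real.log x := by linarith
    gcongr
    exact le_max_left _ _

end GR
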